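import Mathlib

/-! Change of variables of Weierstrass equations at a prime over 3 (by helper832). -/

set_option autoImplicit false

namespace Pool.Agent.Y832.H

open WithZero IsDedekindDomain

section

variable {O : Type} [CommRing O] {𝔓 : Ideal O} {t : O ≃+* O} {l : ℕ}

theorem tmem (ht : ∀ o, t o - o ∈ 𝔓 ^ (l + 1)) (n : ℕ) : ∀ a ∈ 𝔓 ^ n, t a - a ∈ 𝔓 ^ (n + l) := by
  have ht1 : ∀ y ∈ 𝔓, t y ∈ 𝔓 := by
    intro y hy
    have h1 : t y - y ∈ 𝔓 := Ideal.pow_le_self (Nat.succ_ne_zero l) (ht y)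
    have h2 : t y = (t y - y) + y := by ring
    rw [h2]
    exact 𝔓.add_mem h1 hy
  induction n with
  | zero =>
    intro a _
    exact Ideal.pow_le_pow_right (by omega) (ht a)
  | succ n ih =>
    intro a ha
    rw [pow_succ] at ha
    refine Submodule.mul_induction_on ha ?_ ?_
    · intro x hx y hy
      have h1 : t (x * y) - x * y = (t x - x) * t y + x * (t y - y) := by
        rw [map_mul]
        ring
      rw [h1]
      have h2 : (t x - x) * t y ∈ 𝔓 ^ (n + l) * 𝔓 := Ideal.mul_mem_mul (ih x hx) (ht1 y hy)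
      have h3 : x * (t y - y) ∈ 𝔓 ^ n * 𝔓 ^ (l + 1) := Ideal.mul_mem_mul hx (ht y)
      have e2 : 𝔓 ^ (n + l) * 𝔓 = 𝔓 ^ (n + 1 + l) := by
        rw [← pow_succ]
        congr 1
        omega
      have e3 : 𝔓 ^ n * 𝔓 ^ (l + 1) = 𝔓 ^ (n + 1 + l) := by
        rw [← pow_add]
        congr 1
        omega
      rw [e2] at h2
      rw [e3] at h3
      exact Ideal.add_mem _ h2 h3
    · intro x y hx hy
      have h1 : t (x + y) - (x + y) = (t x - x) + (t y - y) := by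
        rw [map_add]
        ring
      rw [h1]
      exact Ideal.add_mem _ hx hy

end

theorem unit_mem {O : Type} [CommRing O] [IsDomain O] [IsDedekindDomain O] (𝔓 : Ideal O)
    (h𝔓 : 𝔓.IsMaximal) (h0 : 𝔓 ≠ ⊥) (t : O ≃+* O) (l : ℕ) (ht : ∀ o, t o - o ∈ 𝔓 ^ (l + 1))
    (u a b : O) (ha : a ≠ 0) (hb : b ≠ 0) (h : u * t a * b = a * t b) : u - 1 ∈ 𝔓 ^ l := by
  let v : HeightOneSpectrum O := ⟨𝔓, h𝔓.isPrime, h0⟩
  have hv : ∀ (r : O) (n : ℕ), v.intValuation r ≤ exp (-(n : ℤ)) ↔ r ∈ 𝔓 ^ n :=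
    fun r n => v.intValuation_le_pow_iff_mem r n
  -- the value of a nonzero element
  have hval : ∀ c : O, c ≠ 0 → ∃ n : ℕ, v.intValuation c = exp (-(n : ℤ)) := by
    intro c hc
    exact ⟨_, v.intValuation_if_neg hc⟩
  have hkey : ∀ c : O, c ≠ 0 → v.intValuation (t c - c) ≤ v.intValuation c * exp (-(l : ℤ)) := by
    intro c hc
    obtain ⟨n, hn⟩ := hval c hc
    have h1 : t c - c ∈ 𝔓 ^ (n + l) := tmem ht n c ((hv c n).1 hn.le)
    have h2 := (hv _ _).2 h1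
    rw [hn, ← exp_add]
    have h3 : -(n : ℤ) + -(l : ℤ) = -((n + l : ℕ) : ℤ) := by push_cast; ring
    rw [h3]
    exact h2
  have hu : v.intValuation u ≤ 1 := v.intValuation_le_one u
  have hid : (u - 1) * (a * b) = u * (a - t a) * b + a * (t b - b) := by
    linear_combination h
  have h1 : v.intValuation (u * (a - t a) * b) ≤
      v.intValuation a * v.intValuation b * exp (-(l : ℤ)) := by
    rw [map_mul, map_mul]
    have h2 : v.intValuation (a - t a) = v.intValuation (t a - a) := by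
      rw [← Valuation.map_neg, neg_sub]
    rw [h2]
    calc v.intValuation u * v.intValuation (t a - a) * v.intValuation b
        ≤ 1 * (v.intValuation a * exp (-(l : ℤ))) * v.intValuation b := by
          gcongr
          exact hkey a ha
      _ = v.intValuation a * v.intValuation b * exp (-(l : ℤ)) := by
          rw [one_mul, mul_assoc, mul_comm (exp (-(l : ℤ))), ← mul_assoc]
  have h2 : v.intValuation (a * (t b - b)) ≤
      v.intValuation a * v.intValuation b * exp (-(l : ℤ)) := by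
    rw [map_mul, mul_assoc]
    gcongr
    exact hkey b hb
  have h3 : v.intValuation ((u - 1) * (a * b)) ≤
      v.intValuation a * v.intValuation b * exp (-(l : ℤ)) := by
    rw [hid]
    exact (v.intValuation.map_add _ _).trans (max_le h1 h2)
  rw [map_mul, map_mul, mul_comm] at h3
  have hab : v.intValuation a * v.intValuation b ≠ 0 :=
    mul_ne_zero (v.intValuation_ne_zero a ha) (v.intValuation_ne_zero b hb)
  rw [mul_le_mul_iff_right₀ (zero_lt_iff.2 hab)] at h3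
  exact (hv _ _).1 h3

theorem t_ecar0 (O : Type) [CommRing O] [IsDomain O] [IsDedekindDomain O] (𝔓 : Ideal O)
    (h𝔓 : 𝔓.IsMaximal) (h0 : 𝔓 ≠ ⊥) (t : O ≃+* O) (l : ℕ) (hl : 1 ≤ l)
    (ht : ∀ o, t o - o ∈ 𝔓 ^ (l + 1)) (h3 : (3 : O) ∈ 𝔓 ^ (2 * l)) (Wc : WeierstrassCurve O)
    (hΔ : Wc.Δ ∉ 𝔓) (C : WeierstrassCurve.VariableChange O) (hC : Wc = C • Wc.map (t : O →+* O))
    (hab : ∃ a b : O, a ≠ 0 ∧ b ≠ 0 ∧ (C.u : O) * t a * b = a * t b) :
    (C.u : O) - 1 ∈ 𝔓 ^ l ∧ C.s ∈ 𝔓 ^ l ∧ (C.r ∈ 𝔓 → C.r ∈ 𝔓 ^ l ∧ C.t ∈ 𝔓 ^ l) := by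
  obtain ⟨a, b, ha, hb, hab⟩ := hab
  have hprime : 𝔓.IsPrime := h𝔓.isPrime
  have hu := unit_mem 𝔓 h𝔓 h0 t l ht C.u a b ha hb hab
  have hl0 : l ≠ 0 := by omega
  have hself : ∀ x, x ∈ 𝔓 ^ l → x ∈ 𝔓 := fun x hx => Ideal.pow_le_self hl0 hx
  have h3l : (3 : O) ∈ 𝔓 ^ l := Ideal.pow_le_pow_right (by omega) h3
  have h31 : (3 : O) ∈ 𝔓 := hself _ h3l
  have h2 : (2 : O) ∉ 𝔓 := by
    intro h
    apply hprime.ne_top
    rw [Ideal.eq_top_iff_one]
    have h4 : (1 : O) = 3 - 2 := by norm_num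
    rw [h4]
    exact 𝔓.sub_mem h31 h
  have htl : ∀ o, t o - o ∈ 𝔓 ^ l := fun o => Ideal.pow_le_pow_right (by omega) (ht o)
  have hcancel : ∀ x y : O, x ∉ 𝔓 → x * y ∈ 𝔓 ^ l → y ∈ 𝔓 ^ l := by
    intro x y hx hxy
    exact (Ideal.IsPrime.mul_mem_pow 𝔓 hxy).resolve_left hx
  have huu : (C.u : O) * (C.u⁻¹ : Oˣ) = 1 := C.u.mul_inv
  -- powers of the unit
  have hun : ∀ n : ℕ, (C.u : O) ^ n - 1 ∈ 𝔓 ^ l := by
    intro n
    obtain ⟨d, hd⟩ := sub_one_dvd_pow_sub_one (C.u : O) n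
    rw [hd]
    exact Ideal.mul_mem_right _ _ hu
  have hdiff : ∀ (n : ℕ) (c : O), (C.u : O) ^ n * c - t c ∈ 𝔓 ^ l := by
    intro n c
    have h4 : (C.u : O) ^ n * c - t c = ((C.u : O) ^ n - 1) * c - (t c - c) := by ring
    rw [h4]
    exact Ideal.sub_mem _ (Ideal.mul_mem_right _ _ (hun n)) (htl c)
  have huinv : ∀ n : ℕ, (C.u : O) ^ n * ((C.u⁻¹ : Oˣ) : O) ^ n = 1 := by
    intro n
    rw [← mul_pow, huu, one_pow]
  -- the formulas
  have f1 : (C.u : O) ^ 1 * Wc.a₁ = t Wc.a₁ + 2 * C.s := by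
    have h4 : Wc.a₁ = ((C.u⁻¹ : Oˣ) : O) * (t Wc.a₁ + 2 * C.s) := by
      conv_lhs => rw [hC]
      rfl
    conv_lhs => rw [h4]
    rw [pow_one, ← mul_assoc, huu, one_mul]
  have f3 : (C.u : O) ^ 3 * Wc.a₃ = t Wc.a₃ + C.r * t Wc.a₁ + 2 * C.t := by
    have h4 : Wc.a₃ = ((C.u⁻¹ : Oˣ) : O) ^ 3 * (t Wc.a₃ + C.r * t Wc.a₁ + 2 * C.t) := by
      conv_lhs => rw [hC]
      rfl
    conv_lhs => rw [h4]
    rw [← mul_assoc, huinv, one_mul]
  have f4 : (C.u : O) ^ 4 * Wc.b₄ = t Wc.b₄ + C.r * t Wc.b₂ + 6 * C.r ^ 2 := by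
    have h4 : Wc.b₄ = ((C.u⁻¹ : Oˣ) : O) ^ 4 * (t Wc.b₄ + C.r * t Wc.b₂ + 6 * C.r ^ 2) := by
      conv_lhs => rw [hC]
      rw [WeierstrassCurve.variableChange_b₄, WeierstrassCurve.map_b₄, WeierstrassCurve.map_b₂]
      rfl
    conv_lhs => rw [h4]
    rw [← mul_assoc, huinv, one_mul]
  have f6 : (C.u : O) ^ 6 * Wc.b₆ = t Wc.b₆ + 2 * C.r * t Wc.b₄ + C.r ^ 2 * t Wc.b₂ + 4 * C.r ^ 3 := by
    have h4 : Wc.b₆ = ((C.u⁻¹ : Oˣ) : O) ^ 6 *
        (t Wc.b₆ + 2 * C.r * t Wc.b₄ + C.r ^ 2 * t Wc.b₂ + 4 * C.r ^ 3) := by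
      conv_lhs => rw [hC]
      rw [WeierstrassCurve.variableChange_b₆, WeierstrassCurve.map_b₄, WeierstrassCurve.map_b₂,
        WeierstrassCurve.map_b₆]
      rfl
    conv_lhs => rw [h4]
    rw [← mul_assoc, huinv, one_mul]
  refine ⟨hu, ?_, ?_⟩
  · apply hcancel 2 _ h2
    have h4 := hdiff 1 Wc.a₁
    rw [f1] at h4
    have h5 : t Wc.a₁ + 2 * C.s - t Wc.a₁ = 2 * C.s := by ring
    rwa [h5] at h4
  · intro hr
    have hrB2 : C.r * t Wc.b₂ ∈ 𝔓 ^ l := by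
      have h4 := hdiff 4 Wc.b₄
      rw [f4] at h4
      have h5 : C.r * t Wc.b₂ = (t Wc.b₄ + C.r * t Wc.b₂ + 6 * C.r ^ 2 - t Wc.b₄) -
          (2 * C.r ^ 2) * 3 := by ring
      rw [h5]
      exact Ideal.sub_mem _ h4 (Ideal.mul_mem_left _ _ h3l)
    have htnot : ∀ c, c ∉ 𝔓 → t c ∉ 𝔓 := by
      intro c hc h
      apply hc
      have h5 : c = t c - (t c - c) := by ring
      rw [h5]
      exact 𝔓.sub_mem h (hself _ (htl c))
    have hrl : C.r ∈ 𝔓 ^ l := by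
      by_cases hb2 : Wc.b₂ ∈ 𝔓
      · have hb4 : Wc.b₄ ∉ 𝔓 := by
          intro hb4
          apply hΔ
          have h5 : Wc.Δ = (-Wc.b₂ * Wc.b₈ + 9 * Wc.b₄ * Wc.b₆) * Wc.b₂ - (8 * Wc.b₄ ^ 2) * Wc.b₄ -
              (9 * Wc.b₆ ^ 2) * 3 := by
            rw [WeierstrassCurve.Δ]
            ring
          rw [h5]
          exact 𝔓.sub_mem (𝔓.sub_mem (𝔓.mul_mem_left _ hb2) (𝔓.mul_mem_left _ hb4))
            (𝔓.mul_mem_left _ h31)
        have h6 := hdiff 6 Wc.b₆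
        rw [f6] at h6
        have h7 : (2 * (t Wc.b₄ + 2 * C.r ^ 2)) * C.r ∈ 𝔓 ^ l := by
          have h8 : (2 * (t Wc.b₄ + 2 * C.r ^ 2)) * C.r =
              (t Wc.b₆ + 2 * C.r * t Wc.b₄ + C.r ^ 2 * t Wc.b₂ + 4 * C.r ^ 3 - t Wc.b₆) -
              C.r * (C.r * t Wc.b₂) := by ring
          rw [h8]
          exact Ideal.sub_mem _ h6 (Ideal.mul_mem_left _ _ hrB2)
        refine hcancel _ _ ?_ h7
        intro h8
        rcases hprime.mem_or_mem h8 with h9 | h9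
        · exact h2 h9
        · apply htnot _ hb4
          have h10 : t Wc.b₄ = (t Wc.b₄ + 2 * C.r ^ 2) - (2 * C.r) * C.r := by ring
          rw [h10]
          exact 𝔓.sub_mem h9 (𝔓.mul_mem_left _ hr)
      · apply hcancel (t Wc.b₂) _ (htnot _ hb2)
        rwa [mul_comm]
    refine ⟨hrl, ?_⟩
    apply hcancel 2 _ h2
    have h4 := hdiff 3 Wc.a₃
    rw [f3] at h4
    have h5 : 2 * C.t = (t Wc.a₃ + C.r * t Wc.a₁ + 2 * C.t - t Wc.a₃) - C.r * t Wc.a₁ := by ring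
    rw [h5]
    exact Ideal.sub_mem _ h4 (Ideal.mul_mem_right _ _ hrl)

end Pool.Agent.Y832.H
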