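import Pool.Agent.Y223.G.Stm13
import Pool.Agent.Y832.H.Ecar0

/-! The change of variables at a prime over 3 with wild ramification (by helper832). -/

set_option autoImplicit false

namespace Pool.Agent.Y832.H

theorem t_ECAR : Pool.Agent.Y223.G.S_ECAR := by
  intro O _ _ _ 𝔓 h𝔓 h0 t l hl ht h3 Wc hΔ C hC hab
  exact t_ecar0 O 𝔓 h𝔓 h0 t l hl ht h3 Wc hΔ C hC hab

end Pool.Agent.Y832.H
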